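import Pool.Agent.MP_187b32_an.Pic.Need
import Pool.Agent.MP_187b32_an.KK.BB
import Pool.Agent.MP_187b32_an.Lin.Fld

/-! The algebraic facts about the energy densities used in the Picard iteration. -/

set_option autoImplicit false

open Pool.Agent.Boltz Finset

noncomputable section

namespace Pool.Agent.MP_187b32_an

namespace Alg

open KK

variable (Q : CollOp)

lemma L_nonneg (f : SV) : 0 ≤ ip (Q.L f) f := by
  obtain ⟨lam, h0, h⟩ := Q.gap
  exact (mul_nonneg h0.le (ip_self_nonneg _)).trans (h f)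

lemma ip_le_dq (f : SV) : ip f f ≤ Q.dq f := le_add_of_nonneg_left (L_nonneg Q f)

lemma dq_nonneg (f : SV) : 0 ≤ Q.dq f := (ip_self_nonneg f).trans (ip_le_dq Q f)

lemma dq_add_le (f g : SV) : Q.dq (f + g) ≤ 2 * Q.dq f + 2 * Q.dq g := by
  have h := dq_nonneg Q (f - g)
  simp only [CollOp.dq, map_add, map_sub, LinearMap.add_apply, LinearMap.sub_apply] at h ⊢
  linarith

lemma dq_smul (a : ℝ) (f : SV) : Q.dq (a • f) = a ^ 2 * Q.dq f := by
  simp only [CollOp.dq, map_smul, LinearMap.smul_apply, smul_eq_mul]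
  ring

lemma continuous_dq : Continuous Q.dq :=
  (continuous_ip.comp (Q.L.continuous.prodMk continuous_id)).add
    (continuous_ip.comp (continuous_id.prodMk continuous_id))

lemma dq_le_two (f : SV) : Q.dq f ≤ nA 0 (Q.L f) + 2 * nA 0 f := by
  have h := ip_self_nonneg (Q.L f - f)
  simp only [map_sub, LinearMap.sub_apply, ip_comm f (Q.L f)] at h
  rw [CollOp.dq, nA_zero, nA_zero]
  linarith [ip_self_nonneg (Q.L f), ip_self_nonneg f]

lemma dq_le_nA : ∃ (d : ℕ) (C : ℝ), 0 < C ∧ ∀ f, Q.dq f ≤ C * nA d f := by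
  obtain ⟨d, C, hC, h⟩ := Q.bdd 0
  have h0 := nA_nonneg d sqMS
  refine ⟨d, C * nA d sqMS + 2, by positivity, fun f => (dq_le_two Q f).trans ?_⟩
  rw [Q.L_eq, nA_neg]
  linarith [h sqMS f, nA_mono (Nat.zero_le d) f]

lemma sum_dq_PP_le (m : ℕ) : ∃ C : ℝ, 0 ≤ C ∧ ∀ f,
    ∑ w ∈ words m, Q.dq (apW w (PP f)) ≤ C * nA m f := by
  choose C1 h1 H1 using fun w => nA_clm_PP_le (Q.L.comp (apW w)) 0
  choose C2 h2 H2 using fun w => nA_clm_PP_le (apW w) 0
  refine ⟨∑ w ∈ words m, (C1 w + 2 * C2 w), sum_nonneg fun w _ => by linarith [h1 w, h2 w],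
    fun f => ?_⟩
  rw [sum_mul]
  refine sum_le_sum fun w _ => (dq_le_two Q _).trans ?_
  have h3 : ip (PP f) (PP f) ≤ nA m f := by
    linarith [ip_PP_PP_le f, nA_mono (Nat.zero_le m) f, nA_zero f]
  have h4 := H1 w f
  have h5 := H2 w f
  rw [ContinuousLinearMap.comp_apply] at h4
  nlinarith [h1 w, h2 w]

lemma wt_nonneg {θ : ℝ} (hθ : 0 ≤ θ) (σ : ℝ) (a j : ℕ) : 0 ≤ θ ^ a * σ ^ (2 * j) := by
  rw [pow_mul']; positivity

lemma lev_mono' {n : ℕ} {θ σ : ℝ} (hθ : 0 ≤ θ) {φ ψ : List (Fin 3) → ℕ → ℝ}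
    (h : ∀ u m, m ≤ n → φ u m ≤ ψ u m) : lev n θ σ φ ≤ lev n θ σ ψ :=
  sum_le_sum fun j _ => sum_le_sum fun m hm => mul_le_mul_of_nonneg_left
    (sum_le_sum fun u _ => h u m (by have := mem_range.1 hm; omega)) (wt_nonneg hθ _ _ _)

lemma lev_const_mul (n : ℕ) (θ σ c : ℝ) (φ : List (Fin 3) → ℕ → ℝ) :
    lev n θ σ (fun u m => c * φ u m) = c * lev n θ σ φ := by
  simp only [lev, mul_sum, mul_left_comm]

lemma lev_add (n : ℕ) (θ σ : ℝ) (φ ψ : List (Fin 3) → ℕ → ℝ) :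
    lev n θ σ (fun u m => φ u m + ψ u m) = lev n θ σ φ + lev n θ σ ψ := by
  simp only [lev, mul_add, sum_add_distrib]

variable {n : ℕ} {θ : ℝ} {σ : E3 → ℝ} {G H : E3 → SV}

lemma bb_self (x : E3) : bb n θ σ G G x = lev n θ (σ x) fun u m => nA m (dXw u G x) := by
  simp only [bb, nA_eq_ip_RR]

lemma bb_le_YY (hθ : 0 ≤ θ) (x : E3) : bb n θ σ G G x ≤ YY Q n θ σ G x := by
  rw [bb_self]
  exact lev_mono hθ fun u m => sum_le_sum fun w _ => ip_le_dq Q _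

lemma YY_nonneg (hθ : 0 ≤ θ) (x : E3) : 0 ≤ YY Q n θ σ G x :=
  lev_nonneg hθ fun _ _ => sum_nonneg fun _ _ => dq_nonneg Q _

lemma YY_add (hθ : 0 ≤ θ) (hG : Sm G) (hH : Sm H) (x : E3) :
    YY Q n θ σ (fun y => G y + H y) x ≤ 2 * YY Q n θ σ G x + 2 * YY Q n θ σ H x := by
  simp only [YY, ← lev_const_mul, ← lev_add, dXw_add hG hH, map_add, mul_sum, ← sum_add_distrib]
  exact lev_mono hθ fun u m => sum_le_sum fun w _ => dq_add_le Q _ _

lemma micro {F : E3 → SV} (hθ : 0 ≤ θ) (hF : Sm F) (hG : Sm G) (h : ∀ y, PP (F y) = 0) (x : E3) :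
    |bb n θ σ F G x| ≤ √(bb n θ σ F F x) * √(yy Q n θ σ G x) := by
  have e : bb n θ σ F G x = bb n θ σ F (fun y => G y - PP (G y)) x := by
    have e0 : ∀ u, PP (dXw u F x) = 0 := fun u => by
      have := congrFun (dXw_clm hF PP u) x
      simp only [h, dXw_zero] at this
      exact this.symm
    simp only [bb, dXw_sub hG (hG.clm PP), dXw_clm hG PP, map_sub, ← PP_RR, ← ip_PP, e0, map_zero,
      LinearMap.zero_apply, sub_zero]
  rw [e, ← Real.sqrt_mul (bb_nonneg hθ x)]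
  exact Real.abs_le_sqrt ((bb_sq_le hθ x).trans
    (mul_le_mul_of_nonneg_left (bb_le_YY Q hθ x) (bb_nonneg hθ x)))

lemma YY_le_bb_yy (n : ℕ) : ∃ C : ℝ, 0 < C ∧ ∀ (θ : ℝ) (σ : E3 → ℝ) (G : E3 → SV),
    0 ≤ θ → Sm G → ∀ x, YY Q n θ σ G x ≤ C * (bb n θ σ G G x + yy Q n θ σ G x) := by
  choose C h0 hC using sum_dq_PP_le Q
  have hS : 0 ≤ ∑ m ∈ range (n + 1), C m := sum_nonneg fun m _ => h0 m
  refine ⟨2 * ∑ m ∈ range (n + 1), C m + 2, by positivity, fun θ σ G hθ hG x => ?_⟩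
  have h1 := YY_add Q (n := n) (σ := σ) hθ (hG.clm PP) (hG.sub (hG.clm PP)) x
  simp only [add_sub_cancel] at h1
  have h2 : YY Q n θ σ (fun y => PP (G y)) x ≤ (∑ m ∈ range (n + 1), C m) * bb n θ σ G G x := by
    rw [bb_self, ← lev_const_mul, YY]
    simp only [dXw_clm hG PP]
    exact lev_mono' hθ fun u m hm => (hC m _).trans (mul_le_mul_of_nonneg_right
      (single_le_sum (fun m _ => h0 m) (mem_range.2 (by omega))) (nA_nonneg _ _))
  have h3 := bb_nonneg (n := n) (σ := σ) (G := G) hθ x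
  have h4 : 0 ≤ yy Q n θ σ G x := YY_nonneg Q hθ x
  change _ ≤ _ + 2 * yy Q n θ σ G x at h1
  nlinarith [mul_nonneg hS h4]

lemma bb_mono {n' : ℕ} {θ' : ℝ} (hn : n ≤ n') (hθ : 0 ≤ θ) (hθ' : θ ≤ θ') (x : E3) :
    bb n θ σ G G x ≤ bb n' θ' σ G G x := by
  rw [bb_self, bb_self]
  have h0 : ∀ j m, 0 ≤ θ' ^ (j + m) * σ x ^ (2 * j) * ∑ u ∈ words j, nA m (dXw u G x) :=
    fun j m => mul_nonneg (wt_nonneg (hθ.trans hθ') _ _ _) (sum_nonneg fun _ _ => nA_nonneg _ _)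
  refine le_trans (sum_le_sum fun j _ => ?_) (sum_le_sum_of_subset_of_nonneg
    (range_mono (Nat.succ_le_succ hn)) fun j _ _ => sum_nonneg fun m _ => h0 j m)
  refine le_trans (sum_le_sum fun m _ => ?_) (sum_le_sum_of_subset_of_nonneg
    (range_mono (show n + 1 - j ≤ n' + 1 - j by omega)) fun m _ _ => h0 j m)
  have h1 : 0 ≤ σ x ^ (2 * j) := by rw [pow_mul']; positivity
  have h2 : 0 ≤ ∑ u ∈ words j, nA m (dXw u G x) := sum_nonneg fun _ _ => nA_nonneg _ _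
  gcongr

lemma YY_le_bb : ∃ (d : ℕ) (C : ℝ), 0 < C ∧ ∀ (n : ℕ) (θ : ℝ) (σ : E3 → ℝ)
    (G : E3 → SV), 0 ≤ θ → θ ≤ 1 → ∀ x, YY Q n θ σ G x ≤ C * bb (n + d) 1 σ G G x := by
  obtain ⟨d, C, hC, h⟩ := dq_le_nA Q
  refine ⟨d, C, hC, fun n θ σ G hθ hθ1 x => ?_⟩
  have h1 : YY Q n θ σ G x ≤ C * lev n θ (σ x) fun u m => nA (m + d) (dXw u G x) := by
    rw [← lev_const_mul]
    refine lev_mono hθ fun u m => ?_
    rw [nA_add, mul_sum]
    exact sum_le_sum fun w _ => h _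
  refine h1.trans (mul_le_mul_of_nonneg_left ?_ hC.le)
  rw [bb_self]
  have h0 : ∀ j m, 0 ≤ (1 : ℝ) ^ (j + m) * σ x ^ (2 * j) * ∑ u ∈ words j, nA m (dXw u G x) :=
    fun j m => mul_nonneg (wt_nonneg zero_le_one _ _ _) (sum_nonneg fun _ _ => nA_nonneg _ _)
  refine le_trans (sum_le_sum fun j hj => ?_) (sum_le_sum_of_subset_of_nonneg
    (range_mono (show n + 1 ≤ n + d + 1 by omega)) fun j _ _ => sum_nonneg fun m _ => h0 j m)
  have hj' := mem_range.1 hj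
  rw [show n + d + 1 - j = d + (n + 1 - j) by omega, sum_range_add]
  refine le_trans (sum_le_sum fun m _ => ?_) (le_add_of_nonneg_left (sum_nonneg fun m _ => h0 j m))
  have h1 : 0 ≤ σ x ^ (2 * j) := by rw [pow_mul']; positivity
  have h2 : 0 ≤ ∑ u ∈ words j, nA (d + m) (dXw u G x) := sum_nonneg fun _ _ => nA_nonneg _ _
  simp only [add_comm m d, one_pow]
  gcongr
  exact pow_le_one₀ hθ hθ1

lemma bb_clm {e : ℝ} {A : SV →L[ℝ] SV} (hθ : 0 ≤ θ) (he : 0 ≤ e) (hG : Sm G)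
    (h : ∀ f, nA n (A f) ≤ e * ip f f) (x : E3) :
    bb n θ σ (fun y => A (G y)) (fun y => A (G y)) x ≤ e * bb n θ σ G G x := by
  rw [bb_self, bb_self, ← lev_const_mul]
  simp only [dXw_clm hG A]
  refine lev_mono' hθ fun u m hm => (nA_mono hm _).trans ((h _).trans ?_)
  rw [← nA_zero]
  exact mul_le_mul_of_nonneg_left (nA_mono (Nat.zero_le m) _) he

lemma bb_dX (hθ : 0 ≤ θ) (i : Fin 3) (x : E3) :
    θ * σ x ^ 2 * bb n θ σ (dX i G) (dX i G) x ≤ bb (n + 1) θ σ G G x := by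
  rw [bb_self, bb_self, lev, lev, sum_range_succ' _ (n + 1), mul_sum]
  refine le_trans (sum_le_sum fun j _ => ?_) (le_add_of_nonneg_right (sum_nonneg fun m _ =>
    mul_nonneg (wt_nonneg hθ _ _ _) (sum_nonneg fun _ _ => nA_nonneg _ _)))
  rw [mul_sum, show n + 1 + 1 - (j + 1) = n + 1 - j by omega]
  refine sum_le_sum fun m _ => ?_
  have h1 : ∑ u ∈ words j, nA m (dXw u (dX i G) x) ≤ ∑ u ∈ words (j + 1), nA m (dXw u G x) := by
    rw [sum_words_succ]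
    exact single_le_sum (f := fun i => ∑ u ∈ words j, nA m (dXw (i :: u) G x))
      (fun _ _ => sum_nonneg fun _ _ => nA_nonneg _ _) (mem_univ i)
  calc _ = θ ^ (j + 1 + m) * σ x ^ (2 * (j + 1)) * ∑ u ∈ words j, nA m (dXw u (dX i G) x) := by ring
    _ ≤ _ := mul_le_mul_of_nonneg_left h1 (wt_nonneg hθ _ _ _)

lemma bb_add_le (hθ : 0 ≤ θ) (hG : Sm G) (hH : Sm H) (x : E3) :
    bb n θ σ (fun y => G y + H y) (fun y => G y + H y) x ≤
      2 * bb n θ σ G G x + 2 * bb n θ σ H H x := by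
  simp only [bb_self, ← lev_const_mul, ← lev_add, dXw_add hG hH]
  exact lev_mono hθ fun u m => nA_add_le _ _ _

lemma bb_neg (hG : Sm G) (x : E3) :
    bb n θ σ (fun y => -G y) (fun y => -G y) x = bb n θ σ G G x := by
  simp only [bb_self, dXw_neg hG, nA_neg]

lemma bb_sum3_le (hθ : 0 ≤ θ) {T : Fin 3 → E3 → SV} (hT : ∀ i, Sm (T i)) {x : E3} {c : ℝ}
    (h : ∀ i, bb n θ σ (T i) (T i) x ≤ c) :
    bb n θ σ (fun y => ∑ i, T i y) (fun y => ∑ i, T i y) x ≤ 10 * c := by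
  simp only [Fin.sum_univ_three]
  linarith [bb_add_le (n := n) (σ := σ) hθ ((hT 0).add (hT 1)) (hT 2) x,
    bb_add_le (n := n) (σ := σ) hθ (hT 0) (hT 1) x, h 0, h 1, h 2]

lemma bb_sub_PP_le (hθ : 0 ≤ θ) (hG : Sm G) (x : E3) :
    bb n θ σ (fun y => G y - PP (G y)) (fun y => G y - PP (G y)) x ≤ bb n θ σ G G x := by
  simp only [bb_self, dXw_sub hG (hG.clm PP), dXw_clm hG PP]
  exact lev_mono hθ fun u m => nA_sub_PP_le _ _

/-- A symbol times a velocity operator acting on a hydrodynamic function. -/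
lemma bb_term (n : ℕ) (K : ℕ → ℝ) (A : SV →L[ℝ] SV) : ∃ C : ℝ, 0 < C ∧ ∀ (θ : ℝ)
    (σ μ a : E3 → ℝ) (Y : E3 → SV) (x : E3), 0 ≤ θ → θ ≤ 1 → Sm a → Sm Y → 0 ≤ σ x → 0 < μ x →
    SymBd K 0 σ μ a → (∀ y, PP (Y y) = Y y) →
    bb n θ σ (fun y => a y • A (Y y)) (fun y => a y • A (Y y)) x
      ≤ C * μ x ^ 2 * bb n θ σ Y Y x := by
  obtain ⟨C, hC, h⟩ := bb_smul_le n K
  obtain ⟨e, he, h'⟩ := nA_clm_PP_le A n
  refine ⟨C * (e + 1), by positivity, fun θ σ μ a Y x hθ hθ1 ha hY hσ hμ hK hP => ?_⟩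
  have h1 := h θ σ (fun y => (μ x)⁻¹ • a y) (fun y => A (Y y)) x hθ hθ1 (ha.const_smul _)
    (hY.clm A) hσ fun w => by
      rw [dXw_const_smul ha]
      beta_reduce
      rw [smul_eq_mul, abs_mul, abs_of_pos (inv_pos.2 hμ), mul_left_comm,
        ← div_eq_inv_mul, div_le_iff₀ hμ]
      exact hK w (Nat.zero_le _) x
  have h2 := bb_clm (n := n) (σ := σ) (A := A.comp PP) hθ he hY
    (fun f => (h' f).trans (mul_le_mul_of_nonneg_left (ip_PP_PP_le f) he)) x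
  simp only [ContinuousLinearMap.comp_apply, hP] at h2
  have hs : Sm fun y => a y • A (Y y) := ha.smul (hY.clm A)
  simp only [smul_assoc] at h1
  rw [bb_smul_left hs, bb_comm, bb_smul_left hs, ← mul_assoc, ← mul_inv, ← div_eq_inv_mul,
    div_le_iff₀ (by positivity)] at h1
  have h3 := bb_nonneg (n := n) (σ := σ) (G := Y) hθ x
  calc _ ≤ _ := h1
    _ ≤ C * ((e + 1) * bb n θ σ Y Y x) * (μ x * μ x) := by gcongr; nlinarith
    _ = _ := by ring

lemma mic_tr (K : ℕ → ℝ) (n : ℕ) (θ : ℝ) (hθ : 0 < θ) (hθ1 : θ ≤ 1) : ∃ C : ℝ, 0 < C ∧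
    ∀ (F : Fld) (σ μ : E3 → ℝ) (W : E3 → SV), F.Reg → F.Bd K σ μ → (∀ x, 0 < σ x) →
      (∀ x, 0 < μ x) → Sm W → (∀ x, PP (W x) = W x) → ∀ x,
      bb n θ σ (fun y => F.tr W y - PP (F.tr W y)) (fun y => F.tr W y - PP (F.tr W y)) x
        ≤ C * μ x ^ 2 * bb (n + 1) θ σ W W x := by
  choose C0 h0 H0 using fun i => bb_term n K (mulV i)
  choose C1 h1 H1 using fun j => bb_term n K (ap j)
  choose C2 h2 H2 using fun i j => bb_term n K ((mulV i).comp (ap j))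
  choose C3 h3 H3 using fun i j => bb_term n K ((mulV i).comp ((mulV j).comp (ap j)))
  obtain ⟨C, hC, c0, c1, c2, c3⟩ : ∃ C : ℝ, 0 < C ∧ (∀ i, C0 i / θ ≤ C) ∧ (∀ i, C1 i ≤ C) ∧
      (∀ i j, C2 i j ≤ C) ∧ ∀ i j, C3 i j ≤ C := by
    obtain ⟨C, hC⟩ := Finite.bddAbove_range fun p : Fin 3 × Fin 3 =>
      C0 p.1 / θ + C1 p.1 + C2 p.1 p.2 + C3 p.1 p.2
    have k : ∀ i j, C0 i / θ + C1 i + C2 i j + C3 i j ≤ C := fun i j => hC ⟨(i, j), rfl⟩
    have p0 : ∀ i, 0 < C0 i / θ := fun i => div_pos (h0 i) hθ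
    exact ⟨C, by linarith [k 0 0, p0 0, h1 0, h2 0 0, h3 0 0],
      fun i => by linarith [k i 0, h1 i, h2 i 0, h3 i 0],
      fun i => by linarith [k i 0, p0 i, h2 i 0, h3 i 0],
      fun i j => by linarith [k i j, p0 i, h1 i, h3 i j],
      fun i j => by linarith [k i j, p0 i, h1 i, h2 i j]⟩
  refine ⟨1300 * C, by positivity, fun F σ μ W hF hB hσ hμ hW hP x => ?_⟩
  set R := μ x ^ 2 * bb (n + 1) θ σ W W x with hR
  have hb := bb_nonneg (n := n) (σ := σ) (G := W) hθ.le x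
  have hm : μ x ^ 2 * bb n θ σ W W x ≤ R :=
    mul_le_mul_of_nonneg_left (bb_mono (Nat.le_succ n) hθ.le le_rfl x) (sq_nonneg _)
  have fin : ∀ {c : ℝ}, c ≤ C → c * μ x ^ 2 * bb n θ σ W W x ≤ C * R := fun hc => by
    rw [mul_assoc]
    exact mul_le_mul hc hm (by positivity) hC.le
  have s0 : ∀ i, Sm fun y => F.c y • mulV i (dX i W y) := fun i => hF.c.1.smul ((hW.dX i).clm _)
  have s1 : ∀ j, Sm fun y => F.b0 j y • ap j (W y) := fun j => (hF.b0 j).1.smul (hW.clm _)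
  have s2 : ∀ i j, Sm fun y => F.b1 i j y • mulV i (ap j (W y)) := fun i j =>
    (hF.b1 i j).1.smul ((hW.clm _).clm _)
  have s3 : ∀ i j, Sm fun y => F.b2 i y • mulV i (mulV j (ap j (W y))) := fun i j =>
    (hF.b2 i).1.smul (((hW.clm _).clm _).clm _)
  have b0 := bb_sum3_le (n := n) (σ := σ) hθ.le s0 (x := x) (c := C * R) fun i => by
    refine (H0 i θ σ _ F.c (dX i W) x hθ.le hθ1 hF.c.1 (hW.dX i) (hσ x).le
      (mul_pos (hμ x) (hσ x)) hB.c (Lin.hyd_dX hW.dif hP i)).trans ?_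
    calc _ = C0 i / θ * (μ x ^ 2 * (θ * σ x ^ 2 * bb n θ σ (dX i W) (dX i W) x)) := by
          field_simp
      _ ≤ _ := mul_le_mul (c0 i) (mul_le_mul_of_nonneg_left (bb_dX hθ.le i x) (sq_nonneg _))
          (mul_nonneg (sq_nonneg _) (mul_nonneg (by positivity) (bb_nonneg hθ.le x))) hC.le
  have b1 := bb_sum3_le (n := n) (σ := σ) hθ.le s1 (x := x) fun j =>
    (H1 j θ σ μ _ W x hθ.le hθ1 (hF.b0 j).1 hW (hσ x).le (hμ x) (hB.b0 j) hP).trans (fin (c1 j))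
  have b2 := bb_sum3_le (n := n) (σ := σ) hθ.le (fun i => Sm.sum univ fun j _ => s2 i j) (x := x)
    fun i => bb_sum3_le hθ.le (s2 i) fun j =>
      (H2 i j θ σ μ _ W x hθ.le hθ1 (hF.b1 i j).1 hW (hσ x).le (hμ x) (hB.b1 i j) hP).trans
        (fin (c2 i j))
  have b3 := bb_sum3_le (n := n) (σ := σ) hθ.le (fun i => Sm.sum univ fun j _ => s3 i j) (x := x)
    fun i => bb_sum3_le hθ.le (s3 i) fun j =>
      (H3 i j θ σ μ _ W x hθ.le hθ1 (hF.b2 i).1 hW (hσ x).le (hμ x) (hB.b2 i) hP).trans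
        (fin (c3 i j))
  have t0 := Sm.sum univ fun i _ => s0 i
  have t1 := Sm.sum univ fun i _ => s1 i
  have t2 := Sm.sum univ fun i _ => Sm.sum univ fun j _ => s2 i j
  have t3 := Sm.sum univ fun i _ => Sm.sum univ fun j _ => s3 i j
  have tv : Sm fun y => F.vel y (W y) := ((t1.add t2).add t3).neg
  have e : (fun y => F.tr W y - PP (F.tr W y)) = fun y =>
      (∑ i, F.c y • mulV i (dX i W y) + F.vel y (W y)) -
        PP (∑ i, F.c y • mulV i (dX i W y) + F.vel y (W y)) := by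
    funext y
    simp only [Fld.tr, sum_add_distrib, map_add, map_sum, map_smul, Lin.hyd_dX hW.dif hP]
    abel
  rw [e]
  refine (bb_sub_PP_le hθ.le (t0.add tv) x).trans ((bb_add_le hθ.le t0 tv x).trans ?_)
  have a1 := bb_neg (n := n) (θ := θ) (σ := σ) ((t1.add t2).add t3) x
  have a2 := bb_add_le (n := n) (σ := σ) hθ.le (t1.add t2) t3 x
  have a3 := bb_add_le (n := n) (σ := σ) hθ.le t1 t2 x
  change bb n θ σ (fun y => F.vel y (W y)) (fun y => F.vel y (W y)) x = _ at a1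
  rw [mul_assoc, ← hR, a1]
  linarith

lemma smC_vel {T : Type*} [TopologicalSpace T] {F : ℝ → Fld} (hF : FldC F) {r : T → ℝ}
    (hr : Continuous r) {G : T → E3 → SV} (hG : SmC G) :
    SmC fun t x => (F (r t)).vel x (G t x) :=
  (((SmC.sum univ fun j _ => ((hF.b0 j).reparam hr).smul (hG.clm (ap j))).add
    (SmC.sum univ fun i _ => SmC.sum univ fun j _ =>
      ((hF.b1 i j).reparam hr).smul ((hG.clm (ap j)).clm (mulV i)))).add
    (SmC.sum univ fun i _ => SmC.sum univ fun j _ =>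
      ((hF.b2 i).reparam hr).smul (((hG.clm (ap j)).clm (mulV j)).clm (mulV i)))).neg

lemma smC_tr' {T : Type*} [TopologicalSpace T] {F : ℝ → Fld} (hF : FldC F) {r : T → ℝ}
    (hr : Continuous r) {G : T → E3 → SV} (hG : SmC G) : SmC fun t => (F (r t)).tr (G t) :=
  (SmC.sum univ fun i _ => (((hF.u i).reparam hr).smul (hG.dX i)).add
    ((hF.c.reparam hr).smul ((hG.dX i).clm (mulV i)))).add (smC_vel hF hr hG)

lemma smC_src {F : ℝ → Fld} (hF : FldC F) : SmC fun s => (F s).src :=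
  (smC_vel hF continuous_id (SmC.const sqMS)).neg

lemma per_tr {F : Fld} (hF : F.Reg) (hG : Per G) : Per (F.tr G) := fun i x => by
  simp only [Fld.tr, Fld.vel, (hF.u _).2 i x, hF.c.2 i x, (hF.b0 _).2 i x, (hF.b1 _ _).2 i x,
    (hF.b2 _).2 i x, hG i x, hG.dX _ i x]

lemma per_src {F : Fld} (hF : F.Reg) : Per F.src := fun i x => by
  simp only [Fld.src, Fld.vel, (hF.b0 _).2 i x, (hF.b1 _ _).2 i x, (hF.b2 _).2 i x]

lemma smC_per (B : BgD) {φ : E3 → SV} (hφ : Sm φ) : SmC (B.per φ) := by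
  obtain ⟨χ, hχ, h1, hs, -⟩ := Lin.exists_cut (a := 7 / 20) (b := 2 / 5) (by norm_num) (by norm_num)
  have h2 : SmC fun (s : ℝ) x => (χ x * B.cut.chi x) • φ (Real.exp s • x) :=
    (hχ.mul (Lin.sm_of_contDiff B.cut.cd_chi)).smC.smul
      (SmC.scale hφ.smC Real.continuous_exp)
  refine (h2.per (ρ := 2 / 5) (fun s x hx => by simp [hs x hx]) (by norm_num)).congr fun s x => ?_
  simp only [Boltz.per, BgD.per]
  rw [← B.cut.per_chi.red x, ← B.cut.per_pi.red x]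
  have hb : box (1 / 2) (red x) := fun i => abs_sub_round (x i)
  by_cases h5 : box (1 / 5) (red x)
  · rw [B.cut.pi_eq _ fun i => (h5 i).trans (by norm_num), h1, one_mul]
    rw [EuclideanSpace.norm_eq, Real.sqrt_le_iff, Fin.sum_univ_three]
    have k : ∀ i, ‖red x i‖ ^ 2 ≤ (1 / 5) ^ 2 := fun i =>
      pow_le_pow_left₀ (norm_nonneg _) (h5 i) 2
    exact ⟨by norm_num, by linarith [k 0, k 1, k 2]⟩
  · simp [B.cut.chi_zero _ hb h5]

end Alg

open Alg in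
theorem algStmt : AlgStmt where
  micro Q _ _ _ _ _ := micro Q
  YY_nonneg Q _ _ _ _ := YY_nonneg Q
  YY_add Q _ _ _ _ _ := YY_add Q
  YY_smul Q n θ σ G a hG x := by
    simp only [YY, dXw_const_smul hG, map_smul, dq_smul, ← lev_const_mul, mul_sum]
  YY_cont Q n θ σ G hσ hG := by
    unfold YY lev
    refine continuous_finsetSum _ fun j _ => continuous_finsetSum _ fun m _ => ?_
    refine (continuous_const.mul (hσ.pow _)).mul (continuous_finsetSum _ fun u _ => ?_)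
    exact continuous_finsetSum _ fun w _ => (continuous_dq Q).comp ((hG.dXw u).clm (apW w)).cont
  YY_le_bb_yy := YY_le_bb_yy
  YY_le_bb := YY_le_bb
  mono _ _ _ _ _ _ := bb_mono
  clm _ _ _ _ _ _ := bb_clm
  mic_tr := mic_tr
  smC_tr _ _ hF hG := smC_tr' hF continuous_id hG
  per_tr _ _ := per_tr
  smC_per B _ := smC_per B

end Pool.Agent.MP_187b32_an
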