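import Pool.Agent.MP_187b32_an.Spec.Energy
import Pool.Agent.MP_187b32_an.Calc.XSob
import Pool.Agent.MP_187b32_an.Calc.Bridge

/-! Pointwise bound by the weighted energy (module M4c). -/

set_option autoImplicit false

open MeasureTheory Pool.Agent.Boltz Finset

noncomputable section

namespace Pool.Agent.MP_187b32_an

lemma abs_sub_le_of_dX {a : E3 → ℝ} (ha : Sm a) {x : E3} {r M : ℝ}
    (h : ∀ z ∈ Metric.closedBall x r, ∀ i, |dX i a z| ≤ M) {y : E3}
    (hy : y ∈ Metric.closedBall x r) : |a y - a x| ≤ 3 * M * r := by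
  have hr : 0 ≤ r := dist_nonneg.trans hy
  have hx : x ∈ Metric.closedBall x r := Metric.mem_closedBall_self hr
  have hM : 0 ≤ M := (abs_nonneg _).trans (h x hx 0)
  have key := (convex_closedBall x r).norm_image_sub_le_of_norm_fderiv_le (f := a) (C := 3 * M)
    (fun z _ => ha.differentiable z) (fun z hz => (ha.norm_fderiv_le z).trans (by
      rw [Fin.sum_univ_three]
      have h0 := h z hz 0
      have h1 := h z hz 1
      have h2 := h z hz 2
      simp only [Real.norm_eq_abs]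
      linarith)) hx hy
  rw [← dist_eq_norm y x] at key
  exact key.trans (mul_le_mul_of_nonneg_left hy (by positivity))

/-- The length scale is comparable with itself on small balls. -/
lemma Slow.scale_cmp {K : ℝ} {σ : E3 → ℝ} (hσ : Slow K σ σ) (hK : 0 < K) {x y : E3}
    (hy : y ∈ Metric.closedBall x (σ x / (6 * K))) : σ x / 2 ≤ σ y ∧ σ y ≤ 2 * σ x := by
  have h := abs_sub_le_of_dX hσ.sm (M := K)
    (fun z _ i => le_of_mul_le_mul_left (by linarith [hσ.bd i z]) (hσ.pos z)) hy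
  have e : 3 * K * (σ x / (6 * K)) = σ x / 2 := by field_simp; ring
  rw [e, abs_le] at h
  constructor <;> linarith [h.1, h.2, hσ.pos x]

/-- A slowly varying weight is comparable with itself on small balls. -/
lemma Slow.weight_cmp {K : ℝ} {σ ω : E3 → ℝ} (hω : Slow K σ ω) (hσ : Slow K σ σ) (hK : 0 < K)
    {x y : E3} (hy : y ∈ Metric.closedBall x (σ x / (6 * K))) :
    ω x ≤ 3 * ω y ∧ ω y ≤ 3 * ω x := by
  have hsx := hσ.pos x
  have hl : Sm fun z => Real.log (ω z) :=
    SmC.comp_contDiffOn hω.sm isOpen_compl_singleton (fun _ z => (hω.pos z).ne')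
      Real.contDiffOn_log
  have h := abs_sub_le_of_dX hl (M := 2 * K / σ x) (fun z hz i => by
    have h1 := (hσ.scale_cmp hK hz).1
    have h2 := hω.bd i z
    have h3 := hω.pos z
    rw [dX_comp hω.sm.dif (Real.hasDerivAt_log h3.ne'), abs_mul, abs_of_pos (inv_pos.2 h3),
      inv_mul_le_iff₀ h3, ← mul_div_assoc, le_div_iff₀ hsx]
    nlinarith [abs_nonneg (dX i ω z)]) hy
  have e : 3 * (2 * K / σ x) * (σ x / (6 * K)) = 1 := by field_simp; ring
  rw [e, abs_le] at h
  have key : ∀ a b : ℝ, 0 < a → 0 < b → Real.log a - Real.log b ≤ 1 → a ≤ 3 * b := by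
    intro a b ha hb hab
    have h1 : a = Real.exp (Real.log a - Real.log b) * b := by
      rw [Real.exp_sub, Real.exp_log ha, Real.exp_log hb]; field_simp
    rw [h1]
    gcongr
    exact (Real.exp_le_exp.2 hab).trans (by linarith [Real.exp_one_lt_d9])
  exact ⟨key _ _ (hω.pos x) (hω.pos y) (by linarith [h.1]), key _ _ (hω.pos y) (hω.pos x) h.2⟩

lemma term_le_bb' {n : ℕ} {θ : ℝ} (hθ : 0 ≤ θ) (σ : E3 → ℝ) (G : E3 → SV) (u : List (Fin 3))
    (m : ℕ) (hum : u.length + m ≤ n) (x : E3) :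
    θ ^ (u.length + m) * σ x ^ (2 * u.length) * nA m (dXw u G x) ≤ bb n θ σ G G x := by
  have hw : ∀ j m : ℕ, 0 ≤ θ ^ (j + m) * σ x ^ (2 * j) := fun j m => by
    rw [pow_mul]; positivity
  have h0 : ∀ j m : ℕ, 0 ≤ θ ^ (j + m) * σ x ^ (2 * j) * ∑ w ∈ words j, nA m (dXw w G x) :=
    fun j m => mul_nonneg (hw j m) (sum_nonneg fun _ _ => nA_nonneg _ _)
  simp only [bb, lev, ← nA_eq_ip_RR]
  refine le_trans ?_ (single_le_sum (f := fun j => ∑ m ∈ range (n + 1 - j),
    θ ^ (j + m) * σ x ^ (2 * j) * ∑ w ∈ words j, nA m (dXw w G x))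
    (fun j _ => sum_nonneg fun m _ => h0 j m) (mem_range.2 (by omega : u.length < n + 1)))
  refine le_trans ?_ (single_le_sum (f := fun m => θ ^ (u.length + m) * σ x ^ (2 * u.length) *
    ∑ w ∈ words u.length, nA m (dXw w G x)) (fun m _ => h0 _ m)
    (mem_range.2 (by omega : m < n + 1 - u.length)))
  exact mul_le_mul_of_nonneg_left (single_le_sum (f := fun w => nA m (dXw w G x))
    (fun _ _ => nA_nonneg _ _) (mem_words.2 rfl)) (hw _ _)

lemma continuous_bb_self {n : ℕ} {θ : ℝ} {σ : E3 → ℝ} {G : E3 → SV} (hσ : Continuous σ)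
    (hG : Sm G) : Continuous (bb n θ σ G G) := by
  unfold bb lev
  simp only [← nA_eq_ip_RR]
  refine continuous_finsetSum _ fun j _ => continuous_finsetSum _ fun m _ => ?_
  exact (continuous_const.mul (hσ.pow _)).mul
    (continuous_finsetSum _ fun u _ => ((hG.dXw u).nA m).cont)

lemma tint_term_le_En {n : ℕ} {θ : ℝ} (hθ : 0 < θ) (hθ1 : θ ≤ 1) {ω σ : E3 → ℝ} {G : E3 → SV}
    (hω : Continuous ω) (hω0 : ∀ y, 0 ≤ ω y) (hσ : Continuous σ) (hG : Sm G) (u : List (Fin 3))
    (m : ℕ) (hum : u.length + m ≤ n) :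
    tint (fun y => ω y * σ y ^ (2 * u.length) * nA m (dXw u G y)) ≤
      (θ ^ n)⁻¹ * En n θ ω σ G G := by
  rw [En, ← tint_const_mul]
  have hc := ((hG.dXw u).nA m).cont
  refine tint_mono (by fun_prop) (continuous_const.mul (hω.mul (continuous_bb_self hσ hG)))
    fun y => ?_
  have h1 := term_le_bb' hθ.le σ G u m hum y
  have h2 : θ ^ n ≤ θ ^ (u.length + m) := pow_le_pow_of_le_one hθ.le hθ1 hum
  have h3 : 0 ≤ σ y ^ (2 * u.length) * nA m (dXw u G y) :=
    mul_nonneg (by rw [pow_mul]; positivity) (nA_nonneg _ _)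
  rw [le_inv_mul_iff₀ (by positivity), mul_assoc, mul_left_comm]
  refine mul_le_mul_of_nonneg_left (le_trans ?_ h1) (hω0 y)
  rw [mul_assoc]
  exact mul_le_mul_of_nonneg_right h2 h3

/-- Pointwise bound of one term. -/
lemma sob_term (K : ℝ) (N : ℕ) {θ : ℝ} (hθ : 0 < θ) (hθ1 : θ ≤ 1) : ∃ C : ℝ, 0 < C ∧
    ∀ (ω σ : E3 → ℝ) (G : E3 → SV), Slow K σ ω → Slow K σ σ → (∀ x, σ x ≤ K) → Sm G → Per G →
      ∀ (u : List (Fin 3)) (m : ℕ), u.length + m ≤ N → ∀ x,
        σ x ^ 3 * ω x * (σ x ^ (2 * u.length) * nA m (dXw u G x)) ≤ C * En (N + 3) θ ω σ G G := by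
  by_cases hK : 0 < K
  swap
  · exact ⟨1, one_pos, fun ω σ G _ hσ hle => absurd ((hσ.pos 0).trans_le (hle 0)) hK⟩
  obtain ⟨D, hD⟩ : ∃ D : ℝ, D = 18 * K := ⟨_, rfl⟩
  have hD0 : 0 < D := by rw [hD]; positivity
  obtain ⟨M, hM⟩ : ∃ M : ℝ, M = ∑ i ∈ range 4, D ^ 3 / D ^ (2 * i) := ⟨_, rfl⟩
  have hM0 : 0 < M := by rw [hM]; exact sum_pos (fun i _ => by positivity) (by simp)
  obtain ⟨c, hc⟩ : ∃ c : ℝ, c = 3 * 4 ^ (N + 3) * M := ⟨_, rfl⟩
  have hc0 : 0 < c := by rw [hc]; positivity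
  obtain ⟨S, hS⟩ : ∃ S : ℝ, S = ∑ i ∈ range 4, ∑ _v ∈ words i, (θ ^ (N + 3))⁻¹ := ⟨_, rfl⟩
  have hS0 : 0 ≤ S := by
    rw [hS]; exact sum_nonneg fun _ _ => sum_nonneg fun _ _ => by positivity
  refine ⟨c * (8 * S) + 1, by positivity, fun ω σ G hω hσ hle hG pG u m hum x => ?_⟩
  have hsx := hσ.pos x
  have hox := hω.pos x
  have hE : 0 ≤ En (N + 3) θ ω σ G G := by
    have := tint_term_le_En (n := N + 3) hθ hθ1 hω.sm.cont (fun y => (hω.pos y).le) hσ.sm.cont hG
      [] 0 (by simp)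
    have h0 : 0 ≤ tint fun y => ω y * σ y ^ (2 * ([] : List (Fin 3)).length) *
        nA 0 (dXw [] G y) := tint_nonneg fun y => by
      have := hω.pos y
      have := hσ.pos y
      have := nA_nonneg 0 (dXw [] G y)
      positivity
    exact (mul_nonneg_iff_of_pos_left (by positivity)).1 (h0.trans this)
  have key := nA_le_weighted m (hG.dXw u) (pG.dXw u)
    (w := fun i y => ω y * σ y ^ (2 * (u.length + i)))
    (fun i => hω.per.map₂ hσ.per fun a b => a * b ^ (2 * (u.length + i)))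
    (fun i => hω.sm.cont.mul (hσ.sm.cont.pow _))
    (fun i y => by have := hω.pos y; have := hσ.pos y; positivity)
    (L := σ x / D) (w₀ := c⁻¹ * (σ x ^ 3 * ω x * σ x ^ (2 * u.length))) (by positivity)
    (by rw [div_le_one hD0]; linarith [hle x]) (by positivity) x (fun i hi y hy => by
      have hy' : y ∈ Metric.closedBall x (σ x / (6 * K)) := by
        have := cube_subset_closedBall x _ hy
        rwa [abs_of_pos (by positivity), show 3 * (σ x / D) = σ x / (6 * K) by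
          rw [hD]; field_simp; ring] at this
      have h1 := (hσ.scale_cmp hK hy').1
      have h2 := (hω.weight_cmp hσ hK hy').1
      have h3 : D ^ 3 / D ^ (2 * i) ≤ M := by
        rw [hM]
        exact single_le_sum (f := fun i => D ^ 3 / D ^ (2 * i)) (fun i _ => by positivity)
          (mem_range.2 hi)
      have h4 : (4 : ℝ) ^ (u.length + i) ≤ 4 ^ (N + 3) :=
        pow_le_pow_right₀ (by norm_num) (by omega)
      have h5 : σ x ^ (2 * (u.length + i)) ≤ 4 ^ (N + 3) * σ y ^ (2 * (u.length + i)) := by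
        calc σ x ^ (2 * (u.length + i)) ≤ (2 * σ y) ^ (2 * (u.length + i)) := by
              gcongr; linarith
          _ = 4 ^ (u.length + i) * σ y ^ (2 * (u.length + i)) := by
              rw [mul_pow, pow_mul]; norm_num
          _ ≤ _ := by have := hσ.pos y; gcongr
      have hoy := hω.pos y
      have hsy := hσ.pos y
      calc c⁻¹ * (σ x ^ 3 * ω x * σ x ^ (2 * u.length)) * ((σ x / D) ^ (2 * i) / (σ x / D) ^ 3)
          = c⁻¹ * (ω x * σ x ^ (2 * (u.length + i)) * (D ^ 3 / D ^ (2 * i))) := by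
            rw [mul_add, pow_add, div_pow, div_pow]; field_simp
        _ ≤ c⁻¹ * (3 * ω y * (4 ^ (N + 3) * σ y ^ (2 * (u.length + i))) * M) := by gcongr
        _ = ω y * σ y ^ (2 * (u.length + i)) := by rw [hc]; field_simp)
  have h6 : ∑ i ∈ range 4, ∑ v ∈ words i, (tint fun y => ω y * σ y ^ (2 * (u.length + i)) *
      nA m (dXw v (dXw u G) y)) ≤
      ∑ i ∈ range 4, ∑ _v ∈ words i, (θ ^ (N + 3))⁻¹ * En (N + 3) θ ω σ G G := by
    refine sum_le_sum fun i hi => sum_le_sum fun v hv => ?_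
    have hv' := mem_words.1 hv
    have hi' := mem_range.1 hi
    have := tint_term_le_En (n := N + 3) hθ hθ1 hω.sm.cont (fun y => (hω.pos y).le) hσ.sm.cont hG
      (u ++ v) m (by rw [List.length_append]; omega)
    rwa [List.length_append, hv', dXw_append] at this
  simp only [← sum_mul] at h6
  rw [← hS] at h6
  have h7 := key.trans (mul_le_mul_of_nonneg_left h6 (by norm_num))
  rw [mul_assoc, inv_mul_le_iff₀ hc0] at h7
  calc _ = σ x ^ 3 * ω x * σ x ^ (2 * u.length) * nA m (dXw u G x) := by ring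
    _ ≤ _ := h7
    _ ≤ _ := by nlinarith

theorem sobStmt : SobStmt := by
  intro K N θ hθ hθ1
  obtain ⟨C, hC, h⟩ := sob_term K N hθ hθ1
  refine ⟨(∑ j ∈ range (N + 1), ∑ _m ∈ range (N + 1 - j), ∑ _u ∈ words j, C) + 1,
    add_pos_of_nonneg_of_pos (sum_nonneg fun _ _ => sum_nonneg fun _ _ =>
      sum_nonneg fun _ _ => hC.le) one_pos, fun ω σ G hω hσ hle hG pG x => ?_⟩
  have h0 := h ω σ G hω hσ hle hG pG [] 0 (by simp) x
  have hE : 0 ≤ En (N + 3) θ ω σ G G := by
    have := hω.pos x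
    have := hσ.pos x
    have := nA_nonneg 0 (dXw [] G x)
    exact (mul_nonneg_iff_of_pos_left hC).1 (le_trans (by positivity) h0)
  simp only [bb, lev, ← nA_eq_ip_RR, one_pow, one_mul, mul_sum, add_mul, sum_mul]
  refine le_trans (sum_le_sum fun j hj => sum_le_sum fun m hm => sum_le_sum fun u hu => ?_)
    (le_add_of_nonneg_right hE)
  have hu' := mem_words.1 hu
  have hj' := mem_range.1 hj
  have hm' := mem_range.1 hm
  have := h ω σ G hω hσ hle hG pG u m (by omega) x
  rwa [hu'] at this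

end Pool.Agent.MP_187b32_an
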